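import Pool.Agent.H699.T.Bnd

/-!
# Query complexity of the bounded algorithm
-/

set_option autoImplicit false

namespace Pool.Agent.H665.T.LOUT

open Finset Classical Pool.Agent.H699.T

theorem w_eq {N : ℕ} {s s' : US N} {v : Fin N} (h : s.vinf v = s'.vinf v) :
    (v ∈ s.V0 ↔ v ∈ s'.V0) ∧ (v ∈ s.V0 → s.w v = s'.w v) := by
  have h1 : (v ∈ s.V0) = (v ∈ s'.V0) := congrArg Prod.fst h
  have h4 := congrFun (congrArg (fun z => z.2.2.2) h) v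
  refine ⟨by rw [h1], fun hv => ?_⟩
  have hv' : v ∈ s'.V0 := h1 ▸ hv
  have e1 : v ∈ s.un (s.top v) := by simp [US.un, hv]
  have e2 : v ∈ s'.un (s'.top v) := by simp [US.un, hv']
  simp only [US.vinf] at h4
  rw [if_pos e1, if_pos e2] at h4
  exact congrArg (fun z => z.2.1) h4

theorem zf_V0 {N : ℕ} {s : US N} {c1 c2 : Fin N → ℕ} {Δ2 Q : ℕ} {χ : Fin N → Fin Q} {v : Fin N}
    (h : v ∈ s.Zf c1 c2 Δ2 χ) : v ∈ s.V0 := by
  simp only [US.Zf, US.XX, mem_filter] at h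
  exact h.1.1

theorem t_LOUT : S_LOCBASIC → S_SYS → S_LUN → S_LGL → S_LST3 → S_LOUT := by
  rintro ⟨hmono, hbind, hdet, hconst, -, hrow, hpi⟩ hSys hUn hGl hSt k L Δ
  obtain ⟨Ke, hKe⟩ := hUn k L Δ
  refine ⟨Ke, fun Δ2 Q => ?_⟩
  obtain ⟨K3, hK3⟩ := hSt ((Δ + 1) ^ L) Δ2 Q
  refine ⟨(K3 + 1) * Ke, fun N q a t b g e ω => ?_⟩
  by_cases hs : small ω
  swap
  · refine ⟨0, by simp only [Nat.cast_zero]; positivity, ?_⟩
    refine hconst _ _ _ _ _ fun d _ d' _ => ?_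
    simp only [outB, if_neg hs]
  obtain ⟨hR, hR1, hA1, hB1, hG1⟩ := id hs
  refine ⟨(zs ω.1).card * N + ((zs ω.2.1.1).card * (Ke * N) + (zs ω.2.1.2.2).card * N +
    (zs ω.2.2.2).card * (Ke * N + K3 * (Ke * N))), ?_, ?_⟩
  · push_cast
    have hN : (0 : ℝ) ≤ N := Nat.cast_nonneg _
    have hKe0 : (0 : ℝ) ≤ Ke := Nat.cast_nonneg _
    have hK30 : (0 : ℝ) ≤ K3 := Nat.cast_nonneg _
    have i1 := mul_le_mul_of_nonneg_right hR1 hN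
    have i2 := mul_le_mul_of_nonneg_right hA1 (mul_nonneg hKe0 hN)
    have i3 := mul_le_mul_of_nonneg_right hB1 hN
    have i4 := mul_le_mul_of_nonneg_right hG1 (mul_nonneg (mul_nonneg (add_nonneg hK30 zero_le_one) hKe0) hN)
    have i5 : ((zs ω.2.2.2).card : ℝ) * ((K3 + 1) * Ke * N) =
        ((zs ω.2.2.2).card : ℝ) * (Ke * N + K3 * (Ke * N)) := by ring
    linarith
  obtain ⟨r0, hr0⟩ := id hR
  have : Inhabited (Fin N) := ⟨r0⟩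
  suffices H : ∀ D1 : Set (Fin N → Fin N → ℕ), (∀ d ∈ D1, IMet k d) →
      (∀ d ∈ D1, ∀ d' ∈ D1, ∀ r ∈ zs ω.1, ∀ y, d r y = d' r y) →
      LocOn D1 ((zs ω.2.1.1).card * (Ke * N) + (zs ω.2.1.2.2).card * N +
        (zs ω.2.2.2).card * (Ke * N + K3 * (Ke * N))) (outB k L Δ Δ2 e ω) by
    have h0 := hpi (Fin N) ℕ (Fin N → ℕ) (Fin N) {d | IMet k d} (Fintype.card (Fin N)) (zs ω.1)
      (fun i d => d i) (fun i _ => hrow _ _ _ _)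
    rw [Fintype.card_fin] at h0
    refine hbind _ _ _ _ _ _ _ _ _ h0 fun ρ => H _ (fun d hd => hd.1) ?_
    intro d hd d' hd' r hr y
    have h1 := congrFun (hd.2.trans hd'.2.symm) r
    simp only [if_pos hr] at h1
    rw [h1]
  intro D1 hm hrows
  have hv := hKe N (zs ω.1) hR D1 hm hrows
  have hok : ∀ d ∈ D1, (usys L Δ (zs ω.1) d).Ok k ((Δ + 1) ^ L) (k * L) ∧
      (usys L Δ (zs ω.1) d).d = d := fun d hd => ⟨(hSys N k L Δ d _ (hm d hd) hR).1, rfl⟩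
  have h2 := hGl N k ((Δ + 1) ^ L) (k * L) (Ke * N) D1 (usys L Δ (zs ω.1)) hok hv (zs ω.2.1.1)
    (zs ω.2.1.2.1) (zs ω.2.1.2.2)
  refine hbind _ _ _ _ _ _ _ _ _ h2 fun c => ?_
  obtain ⟨c1, c2⟩ := c
  set D2 : Set (Fin N → Fin N → ℕ) := {d | d ∈ D1 ∧
    ((usys L Δ (zs ω.1) d).k1 (k * L) (zs ω.2.1.1) (zs ω.2.1.2.1),
      (usys L Δ (zs ω.1) d).k2 (k * L) (zs ω.2.1.1) (zs ω.2.1.2.1) (zs ω.2.1.2.2)) = (c1, c2)}
    with hD2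
  have hsub : D2 ⊆ D1 := fun d hd => hd.1
  have hv2 : ∀ v : Fin N, LocOn D2 (Ke * N) (fun d => (usys L Δ (zs ω.1) d).vinf v) := fun v =>
    hmono _ _ _ _ _ _ _ _ (hv v) hsub le_rfl
  have h3 : ∀ v : Fin N, LocOn D2 (Ke * N + K3 * (Ke * N)) (fun d =>
      ((usys L Δ (zs ω.1) d).vinf v, v ∈ (usys L Δ (zs ω.1) d).Zf c1 c2 Δ2 ω.2.2.1)) := by
    intro v
    refine hbind _ _ _ _ _ _ _ _ _ (hv2 v) fun x => ?_
    have h4 : LocOn D2 (K3 * (Ke * N))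
        (fun d => v ∈ (usys L Δ (zs ω.1) d).Zf c1 c2 Δ2 ω.2.2.1) :=
      hK3 N k (k * L) (Ke * N) D2 (usys L Δ (zs ω.1)) (fun d hd => hok d (hsub hd)) hv2 c1 c2
        ω.2.2.1 v
    refine hdet _ _ _ _ _ _ _ _ (hmono _ _ _ _ _ _ _ _ h4 (fun d hd => hd.1) le_rfl) ?_
    intro d hd d' hd' hdd
    exact Prod.ext (hd.2.trans hd'.2.symm) hdd
  have h5 := hpi (Fin N) ℕ _ (Fin N) D2 (Ke * N + K3 * (Ke * N)) (zs ω.2.2.2) _ fun v _ => h3 v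
  refine hdet _ _ _ _ _ _ _ _ h5 ?_
  intro d hd d' hd' hdd
  have hg1 : g1 k L Δ ω d = c1 := congrArg Prod.fst hd.2
  have hg2 : g2 k L Δ ω d = c2 := congrArg Prod.snd hd.2
  have hg1' : g1 k L Δ ω d' = c1 := congrArg Prod.fst hd'.2
  have hg2' : g2 k L Δ ω d' = c2 := congrArg Prod.snd hd'.2
  simp only [outB, if_pos hs, hg1, hg2, hg1', hg2']
  have key : ∀ v ∈ zs ω.2.2.2, (usys L Δ (zs ω.1) d).vinf v = (usys L Δ (zs ω.1) d').vinf v ∧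
      (v ∈ (usys L Δ (zs ω.1) d).Zf c1 c2 Δ2 ω.2.2.1) =
        (v ∈ (usys L Δ (zs ω.1) d').Zf c1 c2 Δ2 ω.2.2.1) := by
    intro v hv
    have h6 := congrFun hdd v
    simp only [if_pos hv] at h6
    exact ⟨congrArg Prod.fst h6, congrArg Prod.snd h6⟩
  have e1 : wh (usys L Δ (zs ω.1) d) ω.2.2.2 = wh (usys L Δ (zs ω.1) d') ω.2.2.2 := by
    simp only [wh]
    congr 1
    refine Finset.sum_congr rfl fun v hv => ?_
    obtain ⟨h7, h8⟩ := w_eq (key v hv).1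
    by_cases hv0 : v ∈ (usys L Δ (zs ω.1) d).V0
    · rw [if_pos hv0, if_pos (h7.1 hv0), h8 hv0]
    · rw [if_neg hv0, if_neg fun h => hv0 (h7.2 h)]
  have e2 : zh (usys L Δ (zs ω.1) d) ((usys L Δ (zs ω.1) d).Zf c1 c2 Δ2 ω.2.2.1) ω.2.2.2 =
      zh (usys L Δ (zs ω.1) d') ((usys L Δ (zs ω.1) d').Zf c1 c2 Δ2 ω.2.2.1) ω.2.2.2 := by
    simp only [zh]
    congr 1
    refine Finset.sum_congr rfl fun v hv => ?_
    obtain ⟨h7, h8⟩ := w_eq (key v hv).1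
    have h9 := (key v hv).2
    by_cases hv0 : v ∈ (usys L Δ (zs ω.1) d).Zf c1 c2 Δ2 ω.2.2.1
    · rw [if_pos hv0, if_pos (h9 ▸ hv0), h8 (zf_V0 hv0)]
    · rw [if_neg hv0, if_neg fun h => hv0 (h9 ▸ h)]
  rw [e1, e2]

end Pool.Agent.H665.T.LOUT
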